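import Pool.Agent.H92.OD.Targets

/-!
# ORD: differences of values of a polynomial
-/

set_option autoImplicit false

open MvPolynomial Filter Pool.Agent.H92.OD

namespace Pool.Agent.H11.OD

section

variable {k : Type} [Field k] [CharZero k]

lemma ev_add (p q : MvPolynomial (Fin 3) k) (y : HS k) : ev (p + q) y = ev p y + ev q y :=
  map_add _ _ _

lemma ev_mul (p q : MvPolynomial (Fin 3) k) (y : HS k) : ev (p * q) y = ev p y * ev q y :=
  map_mul _ _ _

lemma ev_zero (y : HS k) : ev (0 : MvPolynomial (Fin 3) k) y = 0 := map_zero _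

lemma ev_one (y : HS k) : ev (1 : MvPolynomial (Fin 3) k) y = 1 := map_one _

lemma ev_C (a : k) (y : HS k) : ev (C a : MvPolynomial (Fin 3) k) y = sg 0 a := by
  unfold ev
  rw [aeval_C]
  rfl

lemma ev_X (i : Fin 3) (y : HS k) :
    ev (X i : MvPolynomial (Fin 3) k) y = ![uu k, y, DF y] i := by
  unfold ev
  rw [aeval_X]

/-- facts on the variables -/
lemma var_facts (i : Fin 3) (B : ℚ) (hB : 0 ≤ B) (y z : HS k) (N : ℚ) (hy : geO (-B) y)
    (hz : geO N z) :
    geO (-B) (ev (X i : MvPolynomial (Fin 3) k) y) ∧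
    geO N (ev (pderiv 1 (X i : MvPolynomial (Fin 3) k)) y * z +
      ev (pderiv 2 (X i : MvPolynomial (Fin 3) k)) y * DF z) ∧
    ev (X i : MvPolynomial (Fin 3) k) (y + z) = ev (X i : MvPolynomial (Fin 3) k) y +
      (ev (pderiv 1 (X i : MvPolynomial (Fin 3) k)) y * z +
      ev (pderiv 2 (X i : MvPolynomial (Fin 3) k)) y * DF z) ∧
    geO 0 (ev (pderiv 1 (X i : MvPolynomial (Fin 3) k)) y) ∧
    geO 0 (ev (pderiv 2 (X i : MvPolynomial (Fin 3) k)) y) := by
  have h10 : pderiv (1 : Fin 3) (X 0 : MvPolynomial (Fin 3) k) = 0 :=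
    pderiv_X_of_ne (by decide)
  have h12 : pderiv (1 : Fin 3) (X 2 : MvPolynomial (Fin 3) k) = 0 :=
    pderiv_X_of_ne (by decide)
  have h20 : pderiv (2 : Fin 3) (X 0 : MvPolynomial (Fin 3) k) = 0 :=
    pderiv_X_of_ne (by decide)
  have h21 : pderiv (2 : Fin 3) (X 1 : MvPolynomial (Fin 3) k) = 0 :=
    pderiv_X_of_ne (by decide)
  have h11 : pderiv (1 : Fin 3) (X 1 : MvPolynomial (Fin 3) k) = 1 := pderiv_X_self 1
  have h22 : pderiv (2 : Fin 3) (X 2 : MvPolynomial (Fin 3) k) = 1 := pderiv_X_self 2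
  fin_cases i
  · simp only [Fin.zero_eta, h10, h20, ev_zero, ev_X, Matrix.cons_val_zero, zero_mul, add_zero]
    refine ⟨geO_mono (geO_sg 1 1) (by linarith), geO_zero _, trivial, geO_zero _, geO_zero _⟩
  · simp only [Fin.mk_one, h11, h21, ev_zero, ev_one, ev_X, Matrix.cons_val_one,
      Matrix.cons_val_zero, zero_mul, one_mul, add_zero]
    refine ⟨hy, hz, trivial, geO_one, geO_zero _⟩
  · simp only [Fin.reduceFinMk, h12, h22, ev_zero, ev_one, ev_X, Matrix.cons_val,
      zero_mul, one_mul, zero_add]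
    refine ⟨geO_DF hy, geO_DF hz, DF_add y z, geO_zero _, geO_one⟩

end

theorem pf_ORD : T_ORD := by
  intro k _ _ Φ B₀
  obtain ⟨B, hB⟩ : ∃ B : ℚ, B = max B₀ 0 := ⟨_, rfl⟩
  have hB0 : 0 ≤ B := by rw [hB]; exact le_max_right _ _
  have hBB : B₀ ≤ B := by rw [hB]; exact le_max_left _ _
  have key : ∀ Φ : MvPolynomial (Fin 3) k, ∃ C : ℚ, 0 ≤ C ∧ ∀ (y z : HS k) (N : ℚ),
      geO (-B) y → geO N z → 0 ≤ N →
      geO (-C) (ev Φ y) ∧ geO (-C) (ev (pderiv 1 Φ) y) ∧ geO (-C) (ev (pderiv 2 Φ) y) ∧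
      geO (N - C) (ev Φ (y + z) - ev Φ y) ∧
      geO (2 * N - C) (ev Φ (y + z) - ev Φ y - ev (pderiv 1 Φ) y * z -
        ev (pderiv 2 Φ) y * DF z) := by
    intro Φ
    induction Φ using MvPolynomial.induction_on with
    | C a =>
      refine ⟨0, le_refl _, fun y z N hy hz hN => ?_⟩
      simp only [pderiv_C, ev_C, ev_zero, sub_self, zero_mul, sub_zero, neg_zero]
      exact ⟨geO_sg 0 a, geO_zero _, geO_zero _, geO_zero _, geO_zero _⟩
    | add p q hp hq =>
      obtain ⟨C₁, hC₁, h1⟩ := hp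
      obtain ⟨C₂, hC₂, h2⟩ := hq
      refine ⟨max C₁ C₂, hC₁.trans (le_max_left _ _), fun y z N hy hz hN => ?_⟩
      obtain ⟨a1, a2, a3, a4, a5⟩ := h1 y z N hy hz hN
      obtain ⟨b1, b2, b3, b4, b5⟩ := h2 y z N hy hz hN
      have e1 : C₁ ≤ max C₁ C₂ := le_max_left _ _
      have e2 : C₂ ≤ max C₁ C₂ := le_max_right _ _
      simp only [map_add, ev_add]
      refine ⟨geO_add (geO_mono a1 (by linarith)) (geO_mono b1 (by linarith)),
        geO_add (geO_mono a2 (by linarith)) (geO_mono b2 (by linarith)),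
        geO_add (geO_mono a3 (by linarith)) (geO_mono b3 (by linarith)), ?_, ?_⟩
      · have h3 := geO_add (geO_mono a4 (show N - max C₁ C₂ ≤ N - C₁ by linarith))
          (geO_mono b4 (show N - max C₁ C₂ ≤ N - C₂ by linarith))
        have h4 : ev p (y + z) + ev q (y + z) - (ev p y + ev q y) =
            (ev p (y + z) - ev p y) + (ev q (y + z) - ev q y) := by ring
        rw [h4]
        exact h3
      · have h3 := geO_add (geO_mono a5 (show 2 * N - max C₁ C₂ ≤ 2 * N - C₁ by linarith))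
          (geO_mono b5 (show 2 * N - max C₁ C₂ ≤ 2 * N - C₂ by linarith))
        have h4 : ev p (y + z) + ev q (y + z) - (ev p y + ev q y) -
            (ev (pderiv 1 p) y + ev (pderiv 1 q) y) * z -
            (ev (pderiv 2 p) y + ev (pderiv 2 q) y) * DF z =
            (ev p (y + z) - ev p y - ev (pderiv 1 p) y * z - ev (pderiv 2 p) y * DF z) +
            (ev q (y + z) - ev q y - ev (pderiv 1 q) y * z - ev (pderiv 2 q) y * DF z) := by ring
        rw [h4]
        exact h3
    | mul_X p i hp =>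
      obtain ⟨C, hC, h1⟩ := hp
      refine ⟨C + B, by linarith, fun y z N hy hz hN => ?_⟩
      obtain ⟨a1, a2, a3, a4, a5⟩ := h1 y z N hy hz hN
      obtain ⟨b1, b2, b3, b4, b5⟩ := var_facts i B hB0 y z N hy hz
      simp only [pderiv_mul, ev_add, ev_mul]
      obtain ⟨ζ, hζ⟩ : ∃ ζ : HS k, ζ = ev (pderiv 1 (X i : MvPolynomial (Fin 3) k)) y * z +
        ev (pderiv 2 (X i : MvPolynomial (Fin 3) k)) y * DF z := ⟨_, rfl⟩
      rw [← hζ] at b2 b3
      refine ⟨?_, ?_, ?_, ?_, ?_⟩
      · exact geO_mono (geO_mul a1 b1) (by linarith)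
      · exact geO_add (geO_mono (geO_mul a2 b1) (by linarith))
          (geO_mono (geO_mul a1 b4) (by linarith))
      · exact geO_add (geO_mono (geO_mul a3 b1) (by linarith))
          (geO_mono (geO_mul a1 b5) (by linarith))
      · rw [b3]
        have h4 : ∀ A A' x : HS k, A' * (x + ζ) - A * x =
            (A' - A) * x + (A * ζ + (A' - A) * ζ) := by
          intro A A' x
          ring
        rw [h4]
        exact geO_add (geO_mono (geO_mul a4 b1) (by linarith))
          (geO_add (geO_mono (geO_mul a1 b2) (by linarith))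
            (geO_mono (geO_mul a4 b2) (by linarith)))
      · rw [b3]
        have h4 : ∀ A A' x P P' R R' w w' : HS k, ζ = R * w + R' * w' →
            A' * (x + ζ) - A * x - (P * x + A * R) * w - (P' * x + A * R') * w' =
            (A' - A - P * w - P' * w') * x + (A' - A) * ζ := by
          intro A A' x P P' R R' w w' h
          rw [h]
          ring
        rw [h4 _ _ _ _ _ _ _ _ _ hζ]
        exact geO_add (geO_mono (geO_mul a5 b1) (by linarith))
          (geO_mono (geO_mul a4 b2) (by linarith))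
  obtain ⟨C, _, h⟩ := key Φ
  refine ⟨C, fun y z N hy hz hN => ?_⟩
  obtain ⟨_, _, _, h4, h5⟩ := h y z N (geO_mono hy (by linarith)) hz hN
  exact ⟨h4, h5⟩

end Pool.Agent.H11.OD
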